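import Pool.Agent.helper57.PP.Spec

/-!
# Project pp, row CX: the removed vertices
-/

set_option autoImplicit false

namespace Pool.Agent.helper57.PP

open Finset

theorem CX_key {W : Type} [DecidableEq W] {R : Finset (Finset W)} {A B mid : List W} {y0 x yr : W}
    (hC : (A ++ y0 :: x :: yr :: B).Nodup)
    (hfan : cof R {x} = fan x (y0 :: (mid ++ [yr])))
    (hmid : ∀ y ∈ mid, y ∉ A ++ y0 :: x :: yr :: B) :
    (∀ v, (v ∈ A ++ y0 :: x :: yr :: B ∨ v ∈ vs R) ↔
      v = x ∨ (v ∈ A ++ y0 :: (mid ++ yr :: B) ∨ v ∈ vs (R \ cof R {x}))) ∧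
    ¬ (x ∈ A ++ y0 :: (mid ++ yr :: B) ∨ x ∈ vs (R \ cof R {x})) := by
  have hx1 : x ∉ A ∧ x ≠ y0 ∧ x ≠ yr ∧ x ∉ B := by
    simp only [List.nodup_append, List.nodup_cons, List.mem_cons] at hC
    grind
  have hx2 : x ∉ mid := fun h => hmid x h (by simp)
  constructor
  · intro v
    constructor
    · rintro (h | h)
      · simp only [List.mem_append, List.mem_cons] at h ⊢
        tauto
      · obtain ⟨t, ht, hv⟩ := mem_vs.1 h
        by_cases hxt : x ∈ t
        · have h1 : t ∈ cof R {x} := mem_cof.2 ⟨ht, by simpa using hxt⟩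
          rw [hfan] at h1
          obtain ⟨e, he, rfl⟩ := mem_image.1 h1
          rw [mem_insert] at hv
          rcases hv with hv | hv
          · exact Or.inl hv
          · have h2 := mem_of_mem_pe he hv
            right
            left
            simp only [List.mem_append, List.mem_cons, List.mem_singleton, List.not_mem_nil, or_false] at h2 ⊢
            tauto
        · right
          right
          refine mem_vs.2 ⟨t, ?_, hv⟩
          rw [mem_sdiff]
          exact ⟨ht, fun h1 => hxt (by simpa using (mem_cof.1 h1).2)⟩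
    · rintro (h | h | h)
      · left
        rw [h]
        simp
      · by_cases hvm : v ∈ mid
        · right
          have h1 : v ∈ pth y0 mid yr := by
            unfold pth
            simp [hvm]
          obtain ⟨e, he, hve⟩ := exists_pe_of_mem h1
          have h2 : insert x e ∈ cof R {x} := by
            rw [hfan]
            exact mem_image.2 ⟨e, he, rfl⟩
          exact mem_vs.2 ⟨insert x e, (mem_cof.1 h2).1, mem_insert_of_mem hve⟩
        · left
          simp only [List.mem_append, List.mem_cons] at h ⊢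
          tauto
      · exact Or.inr (vs_mono sdiff_subset h)
  · rintro (h | h)
    · simp only [List.mem_append, List.mem_cons] at h
      tauto
    · obtain ⟨t, ht, hv⟩ := mem_vs.1 h
      rw [mem_sdiff] at ht
      exact ht.2 (mem_cof.2 ⟨ht.1, by simpa using hv⟩)

theorem CX : CX_stmt := by
  intro W _ T R R' a z bs C C' σ h
  induction σ generalizing R C with
  | nil =>
    obtain ⟨rfl, rfl, -⟩ := sw_nil h
    refine ⟨List.nodup_nil, ?_, fun v hv => hv, ?_⟩
    · intro v
      constructor
      · intro hv
        simp at hv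
      · rintro ⟨h1, h2⟩
        exact absurd h1 h2
    · intro s hs
      simp at hs
  | cons s σ ih =>
    obtain ⟨A, B, rfl, hSt, hx, hnd, hfan, hmid, hrest⟩ := sw_cons h
    obtain ⟨ih1, ih2, ih3, ih4⟩ := ih _ _ hrest
    obtain ⟨k1, k2⟩ := CX_key hSt.nd hfan hmid
    have hxn : s.x ∉ σ.map Step.x := fun hh => k2 ((ih2 s.x).1 hh).1
    refine ⟨?_, ?_, ?_, ?_⟩
    · rw [List.map_cons, List.nodup_cons]
      exact ⟨hxn, ih1⟩
    · intro v
      rw [List.map_cons, List.mem_cons, k1 v, ih2 v]
      constructor
      · rintro (rfl | ⟨h1, h2⟩)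
        · exact ⟨Or.inl rfl, fun h1 => k2 (ih3 _ h1)⟩
        · exact ⟨Or.inr h1, h2⟩
      · rintro ⟨h1 | h1, h2⟩
        · exact Or.inl h1
        · exact Or.inr ⟨h1, h2⟩
    · intro v hv
      rw [k1 v]
      exact Or.inr (ih3 v hv)
    · intro s' hs'
      rw [List.mem_cons] at hs'
      rcases hs' with rfl | hs'
      · exact hx
      · exact ih4 s' hs'

end Pool.Agent.helper57.PP
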