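import Pool.Agent.helper57.PP.Spec

/-!
# Project pp, row SWA: concatenation of sweeps
-/

set_option autoImplicit false

namespace Pool.Agent.helper57.PP

open Finset

theorem SWA_st {W : Type} [DecidableEq W] {T : Finset (Finset W)} {a z : W} {bs : List W}
    {R : Finset (Finset W)} {C : List W} {σ : List (Step W)} {R' : Finset (Finset W)} {C' : List W}
    (h : Sw T a z bs R C σ R' C') : St T a z bs R C ∧ St T a z bs R' C' ∧ R' ⊆ R := by
  induction h with
  | nil R C h => exact ⟨h, h, subset_rfl⟩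
  | cons R A y0 x yr B mid σ R' C' h hx hnd hfan hmid hrest ih =>
    exact ⟨h, ih.2.1, ih.2.2.trans sdiff_subset⟩

theorem SWA : SWA_stmt := by
  intro W _ T a z bs
  refine ⟨?_, ?_, ?_⟩
  · intro R C σ R1 C1 σ' R2 C2 h h'
    induction h with
    | nil R C h => exact h'
    | cons R A y0 x yr B mid σ R1 C1 h hx hnd hfan hmid hrest ih =>
      exact Sw.cons R A y0 x yr B mid (σ ++ σ') R2 C2 h hx hnd hfan hmid (ih h')
  · intro R C σ R' C' h
    exact SWA_st h
  · intro R C σ σ' R' C' h
    induction σ generalizing R C with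
    | nil =>
      exact ⟨R, C, Sw.nil R C (SWA_st h).1, h⟩
    | cons s σ ih =>
      obtain ⟨A, B, rfl, hSt, hx, hnd, hfan, hmid, hrest⟩ := sw_cons h
      obtain ⟨R1, C1, h1, h2⟩ := ih _ _ hrest
      obtain ⟨x, y0, mid, yr⟩ := s
      exact ⟨R1, C1, Sw.cons R A y0 x yr B mid σ R1 C1 hSt hx hnd hfan hmid h1, h2⟩

end Pool.Agent.helper57.PP
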