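import Pool.Agent.helper57.PP.Spec

/-!
# Project pp, row ZT: the edges of the cycle
-/

set_option autoImplicit false

namespace Pool.Agent.helper57.PP

open Finset

theorem ZT_eq_iff {W : Type} {n : ℕ} {p : ℕ → W} (hn : 0 < n) (hper : ∀ i, p (i + n) = p i)
    (hinj : ∀ i < n, ∀ j < n, p i = p j → i = j) (i j : ℕ) : p i = p j ↔ i % n = j % n := by
  have h1 : ∀ k i, p (i + n * k) = p i := by
    intro k
    induction k with
    | zero => intro i; simp
    | succ k ih =>
      intro i
      rw [Nat.mul_succ, ← add_assoc, hper, ih]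
  have h2 : ∀ i, p i = p (i % n) := by
    intro i
    conv_lhs => rw [← Nat.mod_add_div i n]
    exact h1 _ _
  constructor
  · intro h
    rw [h2 i, h2 j] at h
    exact hinj _ (Nat.mod_lt _ hn) _ (Nat.mod_lt _ hn) h
  · intro h
    rw [h2 i, h2 j, h]

theorem ZT : ZT_stmt := by
  intro W _ m p hm hper hinj
  have hn : 0 < 2 * m := by omega
  have heq := ZT_eq_iff hn hper hinj
  have n2 : 6 ≤ 2 * m := by omega
  -- congruences
  have hsucc : ∀ i j, i % (2 * m) = j % (2 * m) → (i + 1) % (2 * m) = (j + 1) % (2 * m) := by
    intro i j h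
    exact Nat.ModEq.add_right 1 h
  have hpred : ∀ i j, i % (2 * m) = (j + 1) % (2 * m) → (i + 2 * m - 1) % (2 * m) = j % (2 * m) := by
    intro i j h
    have h1 : (i + (2 * m - 1)) ≡ (j + 1 + (2 * m - 1)) [MOD (2 * m)] := Nat.ModEq.add_right _ h
    have e1 : i + 2 * m - 1 = i + (2 * m - 1) := by omega
    have e2 : j + 1 + (2 * m - 1) = j + 2 * m := by omega
    rw [e2] at h1
    have h3 := h1
    unfold Nat.ModEq at h3
    rw [e1, h3, Nat.add_mod_right]
  have hcan : ∀ i a b, a < 2 * m → b < 2 * m → (i + a) % (2 * m) = (i + b) % (2 * m) → a = b := by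
    intro i a b ha hb h
    have h1 : a ≡ b [MOD (2 * m)] := Nat.ModEq.add_left_cancel' i h
    exact h1.eq_of_lt_of_lt ha hb
  have hE : ∀ i, ({p i, p (i + 1)} : Finset W) ∈ zt m p := by
    intro i
    refine mem_image.2 ⟨i % (2 * m), mem_range.2 (Nat.mod_lt _ hn), ?_⟩
    have h1 : p (i % (2 * m)) = p i := (heq _ _).2 (Nat.mod_mod _ _)
    have h2 : p (i % (2 * m) + 1) = p (i + 1) := (heq _ _).2 (hsucc _ _ (Nat.mod_mod _ _))
    show ({p (i % (2 * m)), p (i % (2 * m) + 1)} : Finset W) = _
    rw [h1, h2]
  have hV : ∀ e ∈ zt m p, ∀ v ∈ e, ∃ i < 2 * m, v = p i := by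
    intro e he v hv
    obtain ⟨i, hi, rfl⟩ := mem_image.1 he
    rw [mem_range] at hi
    simp only [mem_insert, mem_singleton] at hv
    rcases hv with rfl | rfl
    · exact ⟨i, hi, rfl⟩
    · exact ⟨(i + 1) % (2 * m), Nat.mod_lt _ hn, (heq _ _).2 (Nat.mod_mod _ _).symm⟩
  have hA : ∀ i, ∀ e ∈ zt m p, p i ∈ e → e = {p i, p (i + 1)} ∨ e = {p i, p (i + 2 * m - 1)} := by
    intro i e he hi
    obtain ⟨j, hj, rfl⟩ := mem_image.1 he
    simp only [mem_insert, mem_singleton] at hi
    rcases hi with h | h
    · left
      have h1 := hsucc _ _ ((heq _ _).1 h)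
      show ({p j, p (j + 1)} : Finset W) = _
      rw [(heq _ _).2 h1, h]
    · right
      have h1 := hpred _ _ ((heq _ _).1 h)
      show ({p j, p (j + 1)} : Finset W) = _
      rw [(heq _ _).2 h1, h, Finset.pair_comm]
  have hne : ∀ i, ({p i, p (i + 1)} : Finset W) ≠ {p i, p (i + 2 * m - 1)} := by
    intro i h
    have h1 : p (i + 1) ∈ ({p i, p (i + 2 * m - 1)} : Finset W) := by rw [← h]; simp
    simp only [mem_insert, mem_singleton] at h1
    rcases h1 with h1 | h1
    · have := hcan i 1 0 (by omega) hn ((heq _ _).1 h1)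
      omega
    · have e1 : i + 2 * m - 1 = i + (2 * m - 1) := by omega
      rw [e1] at h1
      have := hcan i 1 (2 * m - 1) (by omega) (by omega) ((heq _ _).1 h1)
      omega
  have hI : ∀ i < 2 * m, ∀ j < 2 * m, ({p i, p (i + 1)} : Finset W) = {p j, p (j + 1)} → i = j := by
    intro i hi j hj h
    have h1 : p i ∈ ({p j, p (j + 1)} : Finset W) := by rw [← h]; simp
    have h2 : p j ∈ ({p i, p (i + 1)} : Finset W) := by rw [h]; simp
    simp only [mem_insert, mem_singleton] at h1 h2
    rcases h1 with h1 | h1
    · exact hinj i hi j hj h1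
    · rcases h2 with h2 | h2
      · exact (hinj j hj i hi h2).symm
      · exfalso
        have h3 := (heq _ _).1 h1
        have h4 := (heq _ _).1 h2
        have h5 := hsucc _ _ h3
        have := hcan j 0 2 hn (by omega) (h4.trans h5)
        omega
  refine ⟨?_, ?_, hE, hV, hA, hne, hI⟩
  · intro v
    by_cases hv : ∃ i, v = p i
    · obtain ⟨i, rfl⟩ := hv
      have h1 : (zt m p).filter (fun e => p i ∈ e) = {{p i, p (i + 1)}, {p i, p (i + 2 * m - 1)}} := by
        ext e
        simp only [mem_filter, mem_insert, mem_singleton]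
        constructor
        · rintro ⟨h1, h2⟩
          exact hA i e h1 h2
        · rintro (rfl | rfl)
          · exact ⟨hE i, by simp⟩
          · refine ⟨?_, by simp⟩
            have h3 := hE (i + 2 * m - 1)
            have e1 : i + 2 * m - 1 + 1 = i + 2 * m := by omega
            rw [e1, hper, Finset.pair_comm] at h3
            exact h3
      unfold dg
      rw [h1, Finset.card_pair (hne i)]
      exact even_two
    · have h1 : (zt m p).filter (fun e => v ∈ e) = ∅ := by
        rw [Finset.filter_eq_empty_iff]
        intro e he hve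
        obtain ⟨i, -, h⟩ := hV e he v hve
        exact hv ⟨i, h⟩
      unfold dg
      rw [h1]
      simp
  · intro S hS hSe
    -- neighbouring edges are both in `S` or both outside
    have hstep : ∀ i, ({p i, p (i + 1)} : Finset W) ∈ S ↔ ({p (i + 1), p (i + 1 + 1)} : Finset W) ∈ S := by
      intro i
      have e1 : i + 1 + 2 * m - 1 = i + 2 * m := by omega
      have hA' : ∀ e ∈ S, p (i + 1) ∈ e → e = {p (i + 1), p (i + 1 + 1)} ∨ e = {p i, p (i + 1)} := by
        intro e he hpe
        have := hA (i + 1) e (hS he) hpe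
        rw [e1, hper, Finset.pair_comm (p (i + 1)) (p i)] at this
        exact this
      have hee : ({p (i + 1), p (i + 1 + 1)} : Finset W) ≠ {p i, p (i + 1)} := by
        have := hne (i + 1)
        rw [e1, hper, Finset.pair_comm (p (i + 1)) (p i)] at this
        exact this
      have hev := hSe (p (i + 1))
      unfold dg at hev
      by_contra hcon
      have hodd : (S.filter fun e => p (i + 1) ∈ e).card = 1 := by
        by_cases h1 : ({p i, p (i + 1)} : Finset W) ∈ S
        · have h2 : ({p (i + 1), p (i + 1 + 1)} : Finset W) ∉ S := fun h => hcon ⟨fun _ => h, fun _ => h1⟩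
          have h3 : (S.filter fun e => p (i + 1) ∈ e) = {{p i, p (i + 1)}} := by
            ext e
            simp only [mem_filter, mem_singleton]
            constructor
            · rintro ⟨h4, h5⟩
              rcases hA' e h4 h5 with h6 | h6
              · exact absurd (h6 ▸ h4) h2
              · exact h6
            · rintro rfl
              exact ⟨h1, by simp⟩
          rw [h3, Finset.card_singleton]
        · have h2 : ({p (i + 1), p (i + 1 + 1)} : Finset W) ∈ S := by
            by_contra h
            exact hcon ⟨fun h' => absurd h' h1, fun h' => absurd h' h⟩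
          have h3 : (S.filter fun e => p (i + 1) ∈ e) = {{p (i + 1), p (i + 1 + 1)}} := by
            ext e
            simp only [mem_filter, mem_singleton]
            constructor
            · rintro ⟨h4, h5⟩
              rcases hA' e h4 h5 with h6 | h6
              · exact h6
              · exact absurd (h6 ▸ h4) h1
            · rintro rfl
              exact ⟨h2, by simp⟩
          rw [h3, Finset.card_singleton]
      rw [hodd] at hev
      exact absurd hev (by decide)
    have hall : ∀ i, ({p i, p (i + 1)} : Finset W) ∈ S ↔ ({p 0, p (0 + 1)} : Finset W) ∈ S := by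
      intro i
      induction i with
      | zero => exact Iff.rfl
      | succ i ih => rw [← hstep i, ih]
    by_cases h0 : ({p 0, p (0 + 1)} : Finset W) ∈ S
    · right
      apply Finset.Subset.antisymm hS
      intro e he
      obtain ⟨j, hj, rfl⟩ := mem_image.1 he
      exact (hall j).2 h0
    · left
      rw [Finset.eq_empty_iff_forall_notMem]
      intro e he
      obtain ⟨j, hj, rfl⟩ := mem_image.1 (hS he)
      exact h0 ((hall j).1 he)

end Pool.Agent.helper57.PP
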